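import Pool.Agent.helper17.CH.SpecW
import Pool.Agent.helper18.DM.MV

set_option autoImplicit false

namespace Pool.Agent.CH

open Finset ArithmeticFunction MeasureTheory
open Pool.Agent.helper6.LD Pool.Agent.helper84.DM

private lemma MVT_harm (K : ℕ) (F : Finset ℕ) (g : ℕ → ℕ) (hg : Set.InjOn g F)
    (hK : ∀ n ∈ F, 1 ≤ g n ∧ g n ≤ K) :
    ∑ n ∈ F, (1 : ℝ) / ((g n : ℕ) : ℝ) ≤ 1 + Real.log K := by
  have h1 : ∑ n ∈ F, (1 : ℝ) / ((g n : ℕ) : ℝ) = ∑ d ∈ F.image g, (1 : ℝ) / (d : ℝ) :=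
    (Finset.sum_image (f := fun k : ℕ => (1 : ℝ) / (k : ℝ)) hg).symm
  have h2 : ∑ d ∈ F.image g, (1 : ℝ) / (d : ℝ) ≤ ∑ d ∈ Icc 1 K, (1 : ℝ) / (d : ℝ) := by
    refine Finset.sum_le_sum_of_subset_of_nonneg ?_ fun _ _ _ => by positivity
    intro d hd
    obtain ⟨n, hn, rfl⟩ := Finset.mem_image.1 hd
    exact Finset.mem_Icc.2 (hK n hn)
  have h3 : ∑ d ∈ Icc 1 K, (1 : ℝ) / (d : ℝ) = ((harmonic K : ℚ) : ℝ) := by
    rw [harmonic_eq_sum_Icc]
    push_cast
    refine Finset.sum_congr rfl fun d _ => ?_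
    rw [one_div]
  rw [h1]
  exact h2.trans (h3.le.trans (harmonic_le_one_add_log K))

private lemma MVT_row (K m : ℕ) (hm : m ∈ Ico K (2 * K)) :
    ∑ n ∈ (Ico K (2 * K)).erase m, (1 : ℝ) / |(n : ℝ) - m| ≤ 2 * (1 + Real.log K) := by
  obtain ⟨hm1, hm2⟩ := Finset.mem_Ico.1 hm
  have hsplit : (Ico K (2 * K)).erase m = (Ico K m) ∪ (Ioo m (2 * K)) := by
    ext n
    simp only [Finset.mem_erase, Finset.mem_Ico, Finset.mem_union, Finset.mem_Ioo]
    omega
  have hdisj : Disjoint (Ico K m) (Ioo m (2 * K)) := by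
    rw [Finset.disjoint_left]
    intro n h1 h2
    simp only [Finset.mem_Ico, Finset.mem_Ioo] at h1 h2
    omega
  rw [hsplit, Finset.sum_union hdisj]
  have h1 : ∑ n ∈ Ico K m, (1 : ℝ) / |(n : ℝ) - m| ≤ 1 + Real.log K := by
    have e : ∑ n ∈ Ico K m, (1 : ℝ) / |(n : ℝ) - m| =
        ∑ n ∈ Ico K m, (1 : ℝ) / (((m - n : ℕ)) : ℝ) := by
      refine Finset.sum_congr rfl fun n hn => ?_
      have hn2 : n < m := (Finset.mem_Ico.1 hn).2
      rw [Nat.cast_sub hn2.le, abs_sub_comm, abs_of_nonneg]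
      have : (n : ℝ) < m := by exact_mod_cast hn2
      linarith
    rw [e]
    refine MVT_harm K _ (fun n => m - n) ?_ ?_
    · intro x hx y hy hxy
      have hx' := Finset.mem_Ico.1 (Finset.mem_coe.1 hx)
      have hy' := Finset.mem_Ico.1 (Finset.mem_coe.1 hy)
      simp only at hxy
      omega
    · intro n hn
      have hn' := Finset.mem_Ico.1 hn
      omega
  have h2 : ∑ n ∈ Ioo m (2 * K), (1 : ℝ) / |(n : ℝ) - m| ≤ 1 + Real.log K := by
    have e : ∑ n ∈ Ioo m (2 * K), (1 : ℝ) / |(n : ℝ) - m| =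
        ∑ n ∈ Ioo m (2 * K), (1 : ℝ) / (((n - m : ℕ)) : ℝ) := by
      refine Finset.sum_congr rfl fun n hn => ?_
      have hn2 : m < n := (Finset.mem_Ioo.1 hn).1
      rw [Nat.cast_sub hn2.le, abs_of_nonneg]
      have : (m : ℝ) < n := by exact_mod_cast hn2
      linarith
    rw [e]
    refine MVT_harm K _ (fun n => n - m) ?_ ?_
    · intro x hx y hy hxy
      have hx' := Finset.mem_Ioo.1 (Finset.mem_coe.1 hx)
      have hy' := Finset.mem_Ioo.1 (Finset.mem_coe.1 hy)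
      simp only at hxy
      omega
    · intro n hn
      have hn' := Finset.mem_Ioo.1 hn
      omega
  linarith

private lemma MVT_norm (K : ℕ) (hK : 1 ≤ K) (b : ℕ → ℂ) (t : ℝ) :
    ‖DPb K b t‖ = ‖h58ep (2 * K)
      (fun n => if n ∈ Ico K (2 * K) then (starRingEnd ℂ) (b n) else 0) t‖ := by
  have e : (starRingEnd ℂ) (DPb K b t) = h58ep (2 * K)
      (fun n => if n ∈ Ico K (2 * K) then (starRingEnd ℂ) (b n) else 0) t := by
    unfold DPb h58ep
    have hsub : Ico K (2 * K) ⊆ Icc 1 (2 * K) := by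
      intro n hn
      have := Finset.mem_Ico.1 hn
      exact Finset.mem_Icc.2 ⟨by omega, by omega⟩
    rw [map_sum, ← Finset.sum_subset hsub]
    · refine Finset.sum_congr rfl fun n hn => ?_
      beta_reduce
      rw [if_pos hn, map_mul]
      congr 1
      unfold nit
      rw [← Complex.exp_conj]
      congr 1
      rw [map_mul, Complex.conj_ofReal, Complex.conj_I]
      push_cast
      ring
    · intro n _ hn
      beta_reduce
      rw [if_neg hn, zero_mul]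
  rw [← e, RCLike.norm_conj]

theorem MVT : MVT_stmt := by
  refine ⟨8, by norm_num, fun T K b hT hK => ?_⟩
  set b' : ℕ → ℂ := fun n => if n ∈ Ico K (2 * K) then (starRingEnd ℂ) (b n) else 0 with hb'
  have hlog : 0 ≤ Real.log K := Real.log_natCast_nonneg K
  have hK0 : (0 : ℝ) < K := by exact_mod_cast hK
  have hsub : Ico K (2 * K) ⊆ Icc 1 (2 * K) := by
    intro n hn
    have := Finset.mem_Ico.1 hn
    exact Finset.mem_Icc.2 ⟨by omega, by omega⟩
  have h0 : ∫ t in (-T)..T, ‖DPb K b t‖ ^ 2 = ∫ t in (-T)..(-T + 2 * T), ‖h58ep (2 * K) b' t‖ ^ 2 := by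
    have e : -T + 2 * T = T := by ring
    rw [e]
    refine intervalIntegral.integral_congr fun t _ => ?_
    show ‖DPb K b t‖ ^ 2 = ‖h58ep (2 * K) b' t‖ ^ 2
    rw [MVT_norm K hK b t]
  rw [h0]
  refine (MV_expand b' (by linarith : (0 : ℝ) ≤ 2 * T)).trans ?_
  have hn' : ∀ n ∈ Ico K (2 * K), ‖b' n‖ = ‖b n‖ := by
    intro n hn
    rw [hb']
    simp only
    rw [if_pos hn, RCLike.norm_conj]
  have hz : ∀ n, n ∉ Ico K (2 * K) → ‖b' n‖ = 0 := by
    intro n hn
    rw [hb']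
    simp only
    rw [if_neg hn, norm_zero]
  have h1 : ∑ m ∈ Icc 1 (2 * K), ∑ n ∈ Icc 1 (2 * K), ‖b' m‖ * ‖b' n‖ *
        (if n = m then 2 * T else 2 * MV_c m n) =
      ∑ m ∈ Ico K (2 * K), ∑ n ∈ Ico K (2 * K), ‖b' m‖ * ‖b' n‖ *
        (if n = m then 2 * T else 2 * MV_c m n) := by
    rw [← Finset.sum_subset hsub]
    · refine Finset.sum_congr rfl fun m _ => ?_
      rw [← Finset.sum_subset hsub]
      intro n _ hn
      rw [hz n hn, mul_zero, zero_mul]
    · intro m _ hm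
      refine Finset.sum_eq_zero fun n _ => ?_
      rw [hz m hm, zero_mul, zero_mul]
  rw [h1]
  have h2 : ∀ m ∈ Ico K (2 * K), ∀ n ∈ Ico K (2 * K), ‖b' m‖ * ‖b' n‖ *
        (if n = m then 2 * T else 2 * MV_c m n) ≤
      (‖b m‖ ^ 2 + ‖b n‖ ^ 2) * (if n = m then T else 2 * K * (1 / |(n : ℝ) - m|)) := by
    intro m hm n hn
    rw [hn' m hm, hn' n hn]
    have hmn : ‖b m‖ * ‖b n‖ ≤ (‖b m‖ ^ 2 + ‖b n‖ ^ 2) / 2 := by
      nlinarith [sq_nonneg (‖b m‖ - ‖b n‖)]
    have hw : (if n = m then 2 * T else 2 * MV_c m n) ≤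
        2 * (if n = m then T else 2 * K * (1 / |(n : ℝ) - m|)) := by
      split_ifs with h
      · exact le_rfl
      · refine mul_le_mul_of_nonneg_left ?_ (by norm_num)
        unfold MV_c
        rw [mul_one_div]
        refine div_le_div_of_nonneg_right ?_ (abs_nonneg _)
        have a1 : (m : ℝ) ≤ 2 * K := by
          have := (Finset.mem_Ico.1 hm).2
          exact_mod_cast this.le
        have a2 : (n : ℝ) ≤ 2 * K := by
          have := (Finset.mem_Ico.1 hn).2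
          exact_mod_cast this.le
        exact max_le a1 a2
    have hw0 : 0 ≤ (if n = m then 2 * T else 2 * MV_c m n) := by
      split_ifs
      · linarith
      · exact mul_nonneg (by norm_num) (MV_c_nonneg m n)
    have hs : 0 ≤ (‖b m‖ ^ 2 + ‖b n‖ ^ 2) / 2 := by positivity
    calc ‖b m‖ * ‖b n‖ * (if n = m then 2 * T else 2 * MV_c m n)
        ≤ (‖b m‖ ^ 2 + ‖b n‖ ^ 2) / 2 * (if n = m then 2 * T else 2 * MV_c m n) :=
          mul_le_mul_of_nonneg_right hmn hw0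
      _ ≤ (‖b m‖ ^ 2 + ‖b n‖ ^ 2) / 2 *
            (2 * (if n = m then T else 2 * K * (1 / |(n : ℝ) - m|))) :=
          mul_le_mul_of_nonneg_left hw hs
      _ = _ := by ring
  refine (Finset.sum_le_sum fun m hm => Finset.sum_le_sum fun n hn => h2 m hm n hn).trans ?_
  have h3 : ∑ m ∈ Ico K (2 * K), ∑ n ∈ Ico K (2 * K),
      (‖b m‖ ^ 2 + ‖b n‖ ^ 2) * (if n = m then T else 2 * K * (1 / |(n : ℝ) - m|)) =
      2 * ∑ m ∈ Ico K (2 * K), ‖b m‖ ^ 2 *
        ∑ n ∈ Ico K (2 * K), (if n = m then T else 2 * K * (1 / |(n : ℝ) - m|)) := by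
    simp_rw [add_mul, Finset.sum_add_distrib]
    have e : ∑ m ∈ Ico K (2 * K), ∑ n ∈ Ico K (2 * K),
        ‖b n‖ ^ 2 * (if n = m then T else 2 * K * (1 / |(n : ℝ) - m|)) =
        ∑ m ∈ Ico K (2 * K), ∑ n ∈ Ico K (2 * K),
        ‖b m‖ ^ 2 * (if n = m then T else 2 * K * (1 / |(n : ℝ) - m|)) := by
      rw [Finset.sum_comm]
      refine Finset.sum_congr rfl fun m _ => Finset.sum_congr rfl fun n _ => ?_
      by_cases h : m = n
      · rw [if_pos h, if_pos h.symm]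
      · rw [if_neg h, if_neg (fun h' => h h'.symm), abs_sub_comm]
    rw [e, ← two_mul]
    congr 1
    refine Finset.sum_congr rfl fun m _ => ?_
    rw [Finset.mul_sum]
  rw [h3]
  have h4 : ∀ m ∈ Ico K (2 * K),
      ∑ n ∈ Ico K (2 * K), (if n = m then T else 2 * K * (1 / |(n : ℝ) - m|)) ≤
        4 * (T + K) * (1 + Real.log K) := by
    intro m hm
    rw [← Finset.add_sum_erase _ _ hm, if_pos rfl]
    have e : ∑ n ∈ (Ico K (2 * K)).erase m, (if n = m then T else 2 * K * (1 / |(n : ℝ) - m|)) =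
        2 * K * ∑ n ∈ (Ico K (2 * K)).erase m, (1 / |(n : ℝ) - m|) := by
      rw [Finset.mul_sum]
      refine Finset.sum_congr rfl fun n hn => ?_
      rw [if_neg (Finset.ne_of_mem_erase hn)]
    rw [e]
    have h5 := MVT_row K m hm
    have h6 : 2 * (K : ℝ) * ∑ n ∈ (Ico K (2 * K)).erase m, (1 / |(n : ℝ) - m|) ≤
        2 * K * (2 * (1 + Real.log K)) := mul_le_mul_of_nonneg_left h5 (by positivity)
    nlinarith [mul_nonneg (by linarith : (0 : ℝ) ≤ T) hlog]
  calc 2 * ∑ m ∈ Ico K (2 * K), ‖b m‖ ^ 2 *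
        ∑ n ∈ Ico K (2 * K), (if n = m then T else 2 * K * (1 / |(n : ℝ) - m|))
      ≤ 2 * ∑ m ∈ Ico K (2 * K), ‖b m‖ ^ 2 * (4 * (T + K) * (1 + Real.log K)) := by
        refine mul_le_mul_of_nonneg_left (Finset.sum_le_sum fun m hm => ?_) (by norm_num)
        exact mul_le_mul_of_nonneg_left (h4 m hm) (by positivity)
    _ = 8 * (T + K) * (1 + Real.log K) * ∑ k ∈ Ico K (2 * K), ‖b k‖ ^ 2 := by
        rw [← Finset.sum_mul]
        ring

end Pool.Agent.CH
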